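import Pool.Agent.WAX.Stmts
import Pool.Agent.Helper66_WAT.FNW

/-!
# Squad WAX, row FNX
-/

open scoped BigOperators

set_option autoImplicit false

noncomputable section

namespace Pool.Agent.PP.TX.H20

open Pool.Agent.Helper51_AWC Pool.Agent.Helper79_WRA Pool.Agent.PP Pool.Agent.PP.KF
open Pool.Agent.PP.K9 Pool.Agent.PP.K9.H97 Pool.Agent.PP.H75 Pool.Agent.PP.T3 Pool.Agent.PP.T2
open Pool.Agent.PP.T5 Pool.Agent.PP.TB Pool.Agent.PP.TV Pool.Agent.PP.TX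
open Pool.Agent.PP.T8 (Rv Fq Fr Ei Hk Rk Fd In)

attribute [local instance] Ideal.Quotient.field

theorem gen1 (W : Type) [CommGroup W] [Finite W] (ℓ r : ℕ) (hℓ : 1 ≤ ℓ) (U : Subgroup W)
    (hU : ∀ x : W, x ^ ℓ ∈ U) (hr : Group.rank W ≤ r) : Nat.card W ≤ ℓ ^ r * Nat.card U := by
  have h1 : ∀ q : W ⧸ U, q ^ ℓ = 1 := by
    intro q
    induction q using QuotientGroup.induction_on with
    | H x =>
      rw [← QuotientGroup.mk_pow]
      exact (QuotientGroup.eq_one_iff _).2 (hU x)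
  have h2 : Nat.card (W ⧸ U) ∣ ℓ ^ Group.rank (W ⧸ U) := card_dvd_exponent_pow_rank' (W ⧸ U) h1
  have h3 : Group.rank (W ⧸ U) ≤ r :=
    (Group.rank_le_of_surjective (QuotientGroup.mk' U) (QuotientGroup.mk'_surjective U)).trans hr
  have h4 : Nat.card (W ⧸ U) ≤ ℓ ^ r :=
    (Nat.le_of_dvd (pow_pos (by omega) _) h2).trans (Nat.pow_le_pow_right hℓ h3)
  rw [Subgroup.card_eq_card_quotient_mul_card_subgroup U]
  exact Nat.mul_le_mul_right _ h4

theorem uw_le {G : Type} [Group G] (n : ℕ) (W : Subgroup G) : Uw n W ≤ W := by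
  unfold Uw
  rw [Subgroup.closure_le]
  rintro _ ⟨x, hx, rfl⟩
  exact W.pow_mem hx n

theorem rr_gen {G : Type} [Group G] [Finite G] (ℓ r : ℕ) (hℓ : 1 ≤ ℓ) (s : Fin r → G)
    (W : Subgroup G) (hW : W = Subgroup.closure (Set.range s))
    (hab : ∀ x ∈ W, ∀ y ∈ W, x * y = y * x) : Rr ℓ r W := by
  let _ : CommGroup W :=
    { (inferInstance : Group W) with
      mul_comm := fun x y => Subtype.ext (hab x x.2 y y.2) }
  have h1 : Group.rank W ≤ r := by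
    subst hW
    refine (Subgroup.rank_closure_finite_le_nat_card (Set.range s)).trans ?_
    have h2 := Finite.card_range_le s
    rwa [Nat.card_eq_fintype_card (α := Fin r), Fintype.card_fin] at h2
  have h2 := gen1 W ℓ r hℓ ((Uw ℓ W).subgroupOf W) (fun x => by
    rw [Subgroup.mem_subgroupOf, Subgroup.coe_pow]
    exact Subgroup.subset_closure ⟨x, x.2, rfl⟩) h1
  rw [Nat.card_congr (Subgroup.subgroupOfEquivOfLe (uw_le ℓ W)).toEquiv] at h2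
  exact h2

theorem rr_sub (hUWA : TB.UwaStmt) {G : Type} [Group G] [Finite G] (ℓ r : ℕ) (A B : Subgroup G)
    (hab : ∀ x ∈ A, ∀ y ∈ A, x * y = y * x) (hBA : B ≤ A) (hA : Rr ℓ r A) : Rr ℓ r B := by
  have h1 := (hUWA G A hab).1 B hBA ℓ
  have h2 : 0 < Nat.card (Uw ℓ A) := Nat.card_pos
  unfold Rr at hA ⊢
  refine Nat.le_of_mul_le_mul_right ?_ h2
  calc Nat.card B * Nat.card (Uw ℓ A) ≤ Nat.card A * Nat.card (Uw ℓ B) := h1
    _ ≤ ℓ ^ r * Nat.card (Uw ℓ A) * Nat.card (Uw ℓ B) := Nat.mul_le_mul_right _ hA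
    _ = ℓ ^ r * Nat.card (Uw ℓ B) * Nat.card (Uw ℓ A) := by ring

theorem tx_mono {G F : Type} [Group G] (ℓ a a' : ℕ) (hℓ : 1 ≤ ℓ) (haa : a ≤ a') (V : Subgroup G)
    (γ : G → F) (h : Tx ℓ a V γ) : Tx ℓ a' V γ := by
  rcases h with ⟨h1, h2, h3⟩ | ⟨r, hr, h⟩
  · exact Or.inl ⟨h1, h2, h3.trans (Nat.pow_le_pow_right hℓ haa)⟩
  · refine Or.inr ⟨r, hr, ?_⟩
    rcases h with ⟨h1, h2⟩ | ⟨h1, h2, h3⟩ | h1
    · exact Or.inl ⟨h1, h2.trans haa⟩
    · exact Or.inr (Or.inl ⟨h1, h2, by omega⟩)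
    · exact Or.inr (Or.inr (by omega))

/-- row FNX -/
theorem fnx (hFNW : TV.FnwStmt) (hF : T3.FltStmt) (hZ : T2.DzaStmt) (hQ : T8.Qt3Stmt)
    (hInx : K9.InxStmt) (hUWA : TB.UwaStmt) (hCTX : CtxStmt) (hTXA : TxaStmt) : FnxStmt := by
  intro ℓ hfact M _ hM G _ _ hc χ hχ D hD hDO hab θ hθ a ha hexp r hs hty
  have hℓ := hfact.out
  have hℓ1 : 1 ≤ ℓ := hℓ.one_lt.le
  have hGF : GoodF ℓ (FF M) := H50.fld ℓ hℓ M hM
  have hn : (opCore ℓ G).Normal := H75.opCore_normal (A := G) ℓ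
  obtain ⟨s, hsD, hDc⟩ := hs
  have hclD : Subgroup.closure (Set.range s) ≤ D := by
    rw [Subgroup.closure_le]
    rintro _ ⟨i, rfl⟩
    exact hsD i
  -- the cases of FNW
  by_cases hr2 : r ≤ 2
  · refine hFNW ℓ M hM G hc χ hχ D hD hDO hab θ hθ (Or.inl ?_)
    obtain ⟨x, hx⟩ : ∃ x : ℕ → G, x = fun i => if h : i < r then s ⟨i, h⟩ else 1 := ⟨_, rfl⟩
    have hxD : ∀ i, x i ∈ D := by
      intro i
      rw [hx]
      dsimp only
      split_ifs with h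
      · exact hsD _
      · exact D.one_mem
    refine ⟨x 0, hxD 0, x 1, hxD 1, hDc.trans ?_⟩
    rw [Subgroup.closure_le]
    rintro _ ⟨⟨i, hi⟩, rfl⟩
    have hi2 : i = 0 ∨ i = 1 := by omega
    have hxi : x i = s ⟨i, hi⟩ := by
      rw [hx]
      dsimp only
      rw [dif_pos hi]
    rw [← hxi]
    rcases hi2 with rfl | rfl
    · exact Subgroup.subset_closure (Set.mem_insert _ _)
    · exact Subgroup.subset_closure (Set.mem_insert_of_mem _ rfl)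
  by_cases h3 : 3 * (Iner M D θ).ncard ≤ ℓ * Nat.card (Subgroup.centralizer (D : Set G))
  · exact hFNW ℓ M hM G hc χ hχ D hD hDO hab θ hθ (Or.inr (Or.inr (Or.inl h3)))
  obtain ⟨e, γ, γ', hγ, hTg, hV', -, hFq, hne, hcop, -, hfin⟩ :=
    TV.H66.core hF hZ hQ hInx ℓ M hM G hc χ hχ D hD hab θ hθ (G ⧸ opCore ℓ G)
      (QuotientGroup.mk' (opCore ℓ G)) (QuotientGroup.mk'_surjective _)
      (QuotientGroup.ker_mk' _)
  apply hfin
  -- facts about the inertial group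
  have hVD : Vc D γ ≤ Dc M D θ := by
    unfold Vc
    rw [Subgroup.commutator_le]
    intro t ht d hd
    refine Subgroup.subset_closure ⟨t, ?_, d, hd, rfl⟩
    rw [← hTg]
    exact ht
  have hmemT : ∀ t, t ∈ Tg D γ ↔ t ∈ Iner M D θ := by
    intro t
    rw [← hTg]
    rfl
  have hIn : (Iner M D θ).ncard = ix D γ * Nat.card (Subgroup.centralizer (D : Set G)) := by
    rw [T8.H24.card_Tg hγ, ← hTg]
    rfl
  have hIn' : ∀ n : ℕ, In M D θ n → ix D γ < n := by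
    intro n hI
    unfold In at hI
    rw [hIn] at hI
    exact Nat.lt_of_mul_lt_mul_right hI
  have hRr : Rr ℓ r (Vc D γ) := by
    have habc : ∀ x ∈ Subgroup.closure (Set.range s), ∀ y ∈ Subgroup.closure (Set.range s),
        x * y = y * x := fun x hx y hy => hab x (hclD hx) y (hclD hy)
    exact rr_sub hUWA ℓ r _ _ habc (hVD.trans hDc) (rr_gen ℓ r hℓ1 s _ rfl habc)
  have hTx : Tx ℓ a D γ := by
    rcases hty with h | h | ⟨h1, h2⟩ | ⟨h1, h2, h4⟩ | h | ⟨h1, h2, h4⟩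
    · exact absurd h hr2
    · exact absurd h h3
    · exact Or.inr ⟨r, hRr, Or.inl ⟨hIn' _ h1, h2⟩⟩
    · exact Or.inr ⟨r, hRr, Or.inr (Or.inl ⟨h1, fun u hu t ht =>
        h2 u ((hmemT u).1 hu) t ((hmemT t).1 ht), h4⟩)⟩
    · exact Or.inr ⟨r, hRr, Or.inr (Or.inr h)⟩
    · refine Or.inl ⟨h1, fun t ht v hv hv1 hcom =>
        h4 t ((hmemT t).1 ht) v (hVD hv) hv1 hcom, ?_⟩
      exact Nat.lt_succ_iff.1 (hIn' _ h2)
  have hTx' := hCTX ℓ (FF M) hGF G _ e D γ _ _ γ' hγ hV' hcop hFq a hTx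
  -- the exponent
  obtain ⟨V', hVV⟩ : ∃ V' : Subgroup (G ⧸ opCore ℓ G),
      V' = D.map (QuotientGroup.mk' (opCore ℓ G)) := ⟨_, rfl⟩
  obtain ⟨a₀, ha₀⟩ : ∃ a₀ : ℕ, Monoid.exponent V' = ℓ ^ a₀ := by
    have hpg : IsPGroup ℓ V' := by rw [hVV]; exact hV'.tp.pg
    obtain ⟨n, hn⟩ := IsPGroup.iff_card.1 hpg
    have h1 : Monoid.exponent V' ∣ ℓ ^ n := by
      rw [← hn]
      exact Group.exponent_dvd_nat_card
    obtain ⟨k, -, hk⟩ := (Nat.dvd_prime_pow hℓ).1 h1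
    exact ⟨k, hk⟩
  have haa : a ≤ a₀ := by
    by_contra hlt
    obtain ⟨d, hd, hd'⟩ := hexp
    apply hd'
    have h1 : (⟨QuotientGroup.mk' (opCore ℓ G) d, by rw [hVV]; exact ⟨d, hd, rfl⟩⟩ : V') ^
        Monoid.exponent V' = 1 := Monoid.pow_exponent_eq_one _
    have h2 : (QuotientGroup.mk' (opCore ℓ G) d) ^ ℓ ^ a₀ = 1 := by
      rw [ha₀] at h1
      exact congrArg Subtype.val h1
    have h4 : (QuotientGroup.mk' (opCore ℓ G) d) ^ ℓ ^ (a - 1) = 1 := by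
      obtain ⟨c, hc'⟩ := Nat.exists_eq_add_of_le (show a₀ ≤ a - 1 by omega)
      rw [hc', pow_add, pow_mul, h2, one_pow]
    rw [← map_pow] at h4
    exact (QuotientGroup.eq_one_iff _).1 h4
  refine hTXA ℓ M hM _ _ _ γ' hV' a₀ (lt_of_lt_of_le ha haa) (hVV ▸ ha₀) ?_
  exact tx_mono ℓ a a₀ hℓ1 haa _ γ' hTx'

end Pool.Agent.PP.TX.H20
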